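import Pool.Agent.BBM.C27

/-!
# MP_6eac38_gt: homogeneous compact ANRs of dimension 3 are cohomology 3-manifolds

Every homogeneous compact ANR `X` of covering dimension 3 is a cohomology 3-manifold over `ℤ` and over every countable
field. Cohomology is Alexander-Spanier cohomology (`Pool/Agent/BBH/AS.lean`).
-/

set_option autoImplicit false

namespace Pool.Agent.Results.MP_6eac38_gt.CohomologyManifolds

theorem result : ∀ (X : Type) [MetricSpace X] [CompactSpace X], CTO.IsANR X → CTO.Homog X →
    CTO.CovDimLE X 3 → ¬ CTO.CovDimLE X 2 →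
    AlexanderSpanier.CohomologyManifold ℤ 3 X ∧
    ∀ (k : Type) [Field k] [Countable k], AlexanderSpanier.CohomologyManifold k 3 X := by
  intro X _ _ hA hH h3 h2
  have hne : Nonempty X := by
    by_contra h
    rw [not_nonempty_iff] at h
    refine h2 (fun U _ _ _ => ⟨∅, Set.finite_empty, fun v hv => absurd hv (Set.notMem_empty v),
      ?_, fun v hv => absurd hv (Set.notMem_empty v), fun x => h.elim x⟩)
    ext x
    exact h.elim x
  obtain ⟨m1, m2⟩ := BBH.main X hA hH h3 h2
  have hLP := (BBH.s_LPX X hA).1
  exact ⟨BBH.cohomologyManifold (n := 3) inferInstance m1,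
    fun k _ _ => BBH.cohomologyManifold (n := 3) inferInstance (m2 k)⟩

end Pool.Agent.Results.MP_6eac38_gt.CohomologyManifolds
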