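import Pool.Agent.BBM.C02
import Pool.Agent.BBM.C03
import Pool.Agent.BBM.C04
import Pool.Agent.BBM.C05
import Pool.Agent.BBM.C06
import Pool.Agent.BBM.C14

/-!
# MP_6eac38_gt: homogeneous compact ANRs of dimension 3 and countable-to-one maps into `ℝ³`

Every compact metric space of covering dimension 3 with a countable-to-one continuous map into `ℝ³` contains a
3-cell. A homogeneous compact ANR of dimension 3 is a 3-manifold if and only if some closed subset of dimension 3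
has a countable-to-one continuous map into `ℝ³`.
-/

set_option autoImplicit false

namespace Pool.Agent.Results.MP_6eac38_gt.CompactAnrs

theorem result :
    (∀ (K : Type) [MetricSpace K] [CompactSpace K], CTO.CovDimLE K 3 → ¬ CTO.CovDimLE K 2 →
      (∃ g : K → EuclideanSpace ℝ (Fin 3), Continuous g ∧ ∀ z, (g ⁻¹' {z}).Countable) →
      CTO.ContainsCell K) ∧
    ∀ (X : Type) [MetricSpace X] [CompactSpace X], CTO.IsANR X → CTO.Homog X →
      CTO.CovDimLE X 3 → ¬ CTO.CovDimLE X 2 →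
      (CTO.IsMfd3 X ↔ ∃ K : Set X, IsClosed K ∧ ¬ CTO.CovDimLE K 2 ∧
        ∃ g : K → EuclideanSpace ℝ (Fin 3), Continuous g ∧ ∀ z, (g ⁻¹' {z}).Countable) := by
  have hDIM1 := CTO.t_DIM1 CTO.t_GRID
  have hSPH := CTO.t_SPH CTO.t_HEP CTO.t_POL
  have hFACT := CTO.t_FACT hDIM1 CTO.t_CLOP
  have hLEMX := CTO.t_LEMX CTO.t_HEP hSPH hFACT
  have hCELLS := CTO.t_CELLS CTO.t_OBS0 CTO.t_MIN (CTO.t_BAI2 CTO.t_BAI1) CTO.t_ED CTO.t_RAD
    hLEMX CTO.t_SEP CTO.t_CELLG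
  have hEXT4 := CTO.t_EXT4 (CTO.t_APX4 CTO.t_GP)
  have hCELL2 := CTO.t_CELL2 CTO.t_EFF (CTO.t_CELL1 hEXT4 CTO.t_HOM CTO.t_BRO)
  exact CTO.t_MAIN2 CTO.t_SHR CTO.t_SUBD hCELLS hCELL2 CTO.t_MAN2 (CTO.t_EASY2 CTO.t_SUM)

end Pool.Agent.Results.MP_6eac38_gt.CompactAnrs
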