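import Pool.Agent.BBM.C03
import Pool.Agent.BBM.C04
import Pool.Agent.BBM.C05
import Pool.Agent.BBM.C06
import Pool.Agent.BBM.C09
import Pool.Agent.BBM.C10
import Pool.Agent.BBM.C11
import Pool.Agent.BBM.C12
import Pool.Agent.BBM.C13

/-!
# MP_6eac38_gt: homogeneous compact ANRs of dimension 3 with a product or a flow

A homogeneous compact ANR of dimension 3 is a 3-manifold if and only if it contains a 3-dimensional product of two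
compact metric spaces of positive dimension, if and only if it has a nontrivial flow.
-/

set_option autoImplicit false

namespace Pool.Agent.Results.MP_6eac38_gt.FlowsAndProducts

theorem result :
    ∀ (X : Type) [MetricSpace X] [CompactSpace X], CTO.IsANR X → CTO.Homog X →
      CTO.CovDimLE X 3 → ¬ CTO.CovDimLE X 2 →
      (CTO.IsMfd3 X ↔ ∃ (K Z : Type) (_ : MetricSpace K) (_ : CompactSpace K) (_ : MetricSpace Z)
        (_ : CompactSpace Z), ¬ CTO.CovDimLE K 0 ∧ ¬ CTO.CovDimLE Z 0 ∧ ¬ CTO.CovDimLE (K × Z) 2 ∧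
          ∃ e : K × Z → X, Continuous e ∧ Function.Injective e) ∧
      (CTO.IsMfd3 X ↔ ∃ φ : ℝ → X → X, (Continuous fun p : ℝ × X => φ p.1 p.2) ∧
        (∀ x, φ 0 x = x) ∧ (∀ s t x, φ (s + t) x = φ s (φ t x)) ∧ ∃ t x, φ t x ≠ x) := by
  have hSHR : CTO.S_SHR := CTO.t_SHR
  have hROT : BBP.S_ROT := BBP.t_ROT
  have hSUM : CTO.S_SUM := CTO.t_SUM
  have hINT : BBP.S_INT := BBP.t_INT
  have hOBS0 : CTO.S_OBS0 := CTO.t_OBS0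
  have hHEP : CTO.S_HEP := CTO.t_HEP
  have hPEX : BBP.S_PEX := BBP.t_PEX
  have hNPR : BBP.S_NPR := BBP.t_NPR hOBS0 hHEP hPEX
  have hSUBD : CTO.S_SUBD := CTO.t_SUBD
  have hEMB : BBP.S_EMB := BBP.t_EMB hSUBD
  have hFBX : BBP.S_FBX := BBP.t_FBX
  have hFLP : BBP.S_FLP := BBP.t_FLP hSHR hSUM hINT hNPR hEMB hFBX
  have hOBC : BBP.S_OBC := BBP.t_OBC
  have hEQU : BBP.S_EQU := BBP.t_EQU
  have hNEX : BBP.S_NEX := BBP.t_NEX hOBS0 hOBC hEQU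
  have hKMN : BBP.S_KMN := BBP.t_KMN
  have hDI0 : BBP.S_DI0 := BBP.t_DI0
  have hZMN : BBP.S_ZMN := BBP.t_ZMN
  have hEFF : CTO.S_EFF := CTO.t_EFF
  have hHOM : CTO.S_HOM := CTO.t_HOM
  have hALT : BBP.S_ALT := BBP.t_ALT
  have hSEL : BBP.S_SEL := BBP.t_SEL
  have hROB : BBP.S_ROB := BBP.t_ROB hHOM hALT hSEL
  have hOL : BBP.S_OL := BBP.t_OL hEFF hROB
  have hCOC : BBP.S_COC := BBP.t_COC
  have hVZE : BBP.S_VZE := BBP.t_VZE hCOC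
  have hEXC : BBP.S_EXC := BBP.t_EXC hCOC
  have hVNZ : BBP.S_VNZ := BBP.t_VNZ hCOC hEXC
  have hCEX : BBP.S_CEX := BBP.t_CEX hCOC
  have hVLO : BBP.S_VLO := BBP.t_VLO hCOC hCEX
  have hOPA : BBP.S_OPA := BBP.t_OPA hOL hCOC hVZE hVNZ hVLO
  have hLCA : BBP.S_LCA := BBP.t_LCA
  have hPTM : BBP.S_PTM := BBP.t_PTM
  have hPTA : BBP.S_PTA := BBP.t_PTA hPTM
  have hARZ : BBP.S_ARZ := BBP.t_ARZ hLCA hPTA
  have hMNI : BBP.S_MNI := BBP.t_MNI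
  have hAXY : BBP.S_AXY := BBP.t_AXY hLCA hOPA hMNI
  have hCMP : BBP.S_CMP := BBP.t_CMP
  have hLPC : BBP.S_LPC := BBP.t_LPC
  have hMMN : BBP.S_MMN := BBP.t_MMN hCMP
  have hPNT : BBP.S_PNT := BBP.t_PNT hLPC hMMN
  have hARB : BBP.S_ARB := BBP.t_ARB
  have hGLU : BBP.S_GLU := BBP.t_GLU
  have hTRI : BBP.S_TRI := BBP.t_TRI
  have hINC : BBP.S_INC := BBP.t_INC
  have hLOG : BBP.S_LOG := BBP.t_LOG hPTA hARB hGLU hTRI hINC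
  have hNSP : BBP.S_NSP := BBP.t_NSP hMMN
  have hNRM : BBP.S_NRM := BBP.t_NRM
  have hSML : BBP.S_SML := BBP.t_SML hLPC hLOG hNSP hNRM
  have hDEG : BBP.S_DEG := BBP.t_DEG
  have hCTH : BBP.S_CTH := BBP.t_CTH
  have hCTR : BBP.S_CTR := BBP.t_CTR
  have hUNI : BBP.S_UNI := BBP.t_UNI hCMP hPNT hSML hDEG hCTH hCTR
  have hSCA : BBP.S_SCA := BBP.t_SCA
  have hSCB : BBP.S_SCB := BBP.t_SCB hSCA
  have hINQ : BBP.S_INQ := BBP.t_INQ hDEG hSCB hCTR hCMP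
  have hJC2 : BBP.S_JC2 := BBP.t_JC2 hSCB hARB hNSP
  have hACC : BBP.S_ACC := BBP.t_ACC hPTA
  have hJC3 : BBP.S_JC3 := BBP.t_JC3 hLPC hSCA hSCB hARB hGLU hDEG hINQ hJC2 hACC
  have hJCT : BBP.S_JCT := BBP.t_JCT hLPC hSCB hINQ hJC2 hJC3
  have hNST : BBP.S_NST := BBP.t_NST hDEG hJCT
  have hFIV : BBP.S_FIV := BBP.t_FIV hDEG hSCB hCMP hCTR hJCT
  have hSGN : BBP.S_SGN := BBP.t_SGN hDEG hCMP hMMN hJCT hFIV hNST
  have hDGP : BBP.S_DGP := BBP.t_DGP hDEG hJCT hFIV hNST hSGN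
  have hEON : BBP.S_EON := BBP.t_EON hLPC hARB hLOG hNSP hDEG hJCT hDGP
  have hETW : BBP.S_ETW := BBP.t_ETW
  have hJAN : BBP.S_JAN := BBP.t_JAN hLPC hPTA hDEG hPNT hJCT hEON hETW
  have hPLN : BBP.S_PLN := BBP.t_PLN hLPC hARB hDEG hCTH hNSP hPNT hSML hJCT hNST hDGP hEON hJAN
  have hULC : BBP.S_ULC := BBP.t_ULC hSCB hARB
  have hACP : BBP.S_ACP := BBP.t_ACP hULC
  have hXCT : BBP.S_XCT := BBP.t_XCT hACC hACP
  have hTHA : BBP.S_THA := BBP.t_THA hARB hGLU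
  have hTHB : BBP.S_THB := BBP.t_THB hARB hGLU hACC hTHA
  have hTHE : BBP.S_THE := BBP.t_THE hARB hTHA hTHB
  have hLMX : BBP.S_LMX := BBP.t_LMX hPTA hARB hSCB hACP
  have hDVA : BBP.S_DVA := BBP.t_DVA hARB hSCB hTHE
  have hLMA : BBP.S_LMA := BBP.t_LMA hARB hSCA hGLU hDEG hTRI hINC
  have hLMB : BBP.S_LMB := BBP.t_LMB hPTA hARB hSCA hSCB hDVA hLMA
  have hLMS : BBP.S_LMS := BBP.t_LMS hSCB hTHE hLMX hLMB
  have hCEL : BBP.S_CEL := BBP.t_CEL hXCT hTHE hLMS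
  have hCPS : BBP.S_CPS := BBP.t_CPS
  have hOMC : BBP.S_OMC := BBP.t_OMC hCPS
  have hCPL : BBP.S_CPL := BBP.t_CPL hOMC
  have hSTP : BBP.S_STP := BBP.t_STP hARB
  have hRFN : BBP.S_RFN := BBP.t_RFN hSTP
  have hSWP : BBP.S_SWP := BBP.t_SWP hSCB
  have hMSH : BBP.S_MSH := BBP.t_MSH hRFN hSWP
  have hLIM : BBP.S_LIM := BBP.t_LIM hSCA hSCB hMSH
  have hDSC : BBP.S_DSC := BBP.t_DSC hUNI hPNT hSML hPLN hCEL hCPL hLIM
  have hGP : CTO.S_GP := CTO.t_GP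
  have hAPX4 : CTO.S_APX4 := CTO.t_APX4 hGP
  have hEXT4 : CTO.S_EXT4 := CTO.t_EXT4 hAPX4
  have hBRO : CTO.S_BRO := CTO.t_BRO
  have hCELL1 : CTO.S_CELL1 := CTO.t_CELL1 hEXT4 hHOM hBRO
  have hCELL2 : CTO.S_CELL2 := CTO.t_CELL2 hEFF hCELL1
  have hMAN2 : CTO.S_MAN2 := CTO.t_MAN2
  have hPRM : BBP.S_PRM := BBP.t_PRM hSHR hEMB hNPR hNEX hKMN hDI0 hZMN hOPA hARZ hAXY hDSC hCELL2 hMAN2
  have hMAIN3 : BBP.MainStmt3 := BBP.t_MAIN3 hSHR hROT hFLP hPRM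
  exact hMAIN3

end Pool.Agent.Results.MP_6eac38_gt.FlowsAndProducts
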