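import Pool.Agent.BBM.C01
import Pool.Agent.BBM.C02
import Pool.Agent.BBM.C03
import Pool.Agent.BBM.C04

/-!
# MP_6eac38_gt: homogeneous compacta of dimension 3 with countable-to-one or light maps into `ℝ³`

A homogeneous compact metric space of covering dimension 3 is a 3-manifold if and only if it is a countable
union of closed subsets with countable-to-one continuous maps into `ℝ³`, if and only if some nonempty open
subset has a light map into `ℝ³` with nonmeagerly many fibres having an isolated point.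
-/

set_option autoImplicit false

namespace Pool.Agent.Results.MP_6eac38_gt.LightMaps

theorem result (X : Type) [MetricSpace X] [CompactSpace X] (hX : CTO.Homog X)
    (h3 : CTO.CovDimLE X 3) (h2 : ¬ CTO.CovDimLE X 2) :
    (CTO.IsMfd3 X ↔ CTO.CountMaps X) ∧ (CTO.IsMfd3 X ↔ CTO.LightMap X) := by
  have hDIM1 := CTO.t_DIM1 CTO.t_GRID
  have hSPH := CTO.t_SPH CTO.t_HEP CTO.t_POL
  have hFACT := CTO.t_FACT hDIM1 CTO.t_CLOP
  have hLEMX := CTO.t_LEMX CTO.t_HEP hSPH hFACT
  have hOPEN := CTO.t_OPEN CTO.t_ED CTO.t_RAD hLEMX CTO.t_SEP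
  exact CTO.t_MAIN CTO.t_SHR CTO.t_OBS0 CTO.t_OBS1 CTO.t_OBSH CTO.t_BAI1
    (CTO.t_BAI2 CTO.t_BAI1) hOPEN CTO.t_MAN CTO.t_EASY X hX h3 h2

end Pool.Agent.Results.MP_6eac38_gt.LightMaps
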